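import Pool.Agent.helper62.MS.SpecA

set_option autoImplicit false

open scoped MatrixGroups ContDiff Topology UpperHalfPlane ComplexConjugate
open UpperHalfPlane MeasureTheory Filter Set

namespace Pool.Agent.MS

open Pool.Agent.RS

theorem EQ2_pow (y δ r : ℝ) (hy : 0 < y) :
    (((Real.exp (-δ) * y : ℝ) : ℂ)) ^ ((1 / 2 : ℂ) + (r : ℂ) * Complex.I) =
      Complex.exp (-((r * δ : ℝ) : ℂ) * Complex.I) * ((Real.exp (-(δ / 2)) : ℝ) : ℂ) *
        ((y : ℝ) : ℂ) ^ ((1 / 2 : ℂ) + (r : ℂ) * Complex.I) := by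
  rw [Complex.ofReal_mul, Complex.mul_cpow_ofReal_nonneg (Real.exp_pos _).le hy.le]
  congr 1
  rw [Complex.cpow_def_of_ne_zero (by
    rw [Complex.ofReal_ne_zero]
    exact (Real.exp_pos _).ne'), ← Complex.ofReal_log (Real.exp_pos _).le, Real.log_exp, Complex.ofReal_exp, ← Complex.exp_add]
  congr 1
  push_cast
  ring

theorem EQ2_proof (hGWB : GWB_stmt) (hCV1 : CV1_stmt) (hFL0 : FL0_stmt) (hGLC : GLC_stmt) : EQ2_stmt := by
  intro Γ β α δ r φ g hΓ hβ hα hφ
  have hTB : TB (1 / 4) (pc β α) := (hCV1.2.2 (1 / 4) α β hα hβ).1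
  have hT : Tst (pk r (pc β α)) := hFL0.2.1 (1 / 4) r _ hTB
  have hcc := (hFL0.1 (1 / 4) _ hTB).2.2.2.2.2
  obtain ⟨-, -, -, -, -, -, -, hact, -, -, hadd, -⟩ := hGLC
  have h0 : aM 0 = 1 := by
    have h := hadd 0 0
    rw [add_zero] at h
    exact (mul_eq_left (a := aM 0) (b := aM 0)).1 h.symm
  have hinv : (aM δ)⁻¹ = aM (-δ) := by
    rw [inv_eq_iff_mul_eq_one, ← hadd, add_neg_cancel, h0]
  have hcont : Continuous (pk r (pc β α)) := by
    unfold pk
    refine hcc.2.mul ?_
    refine Continuous.cpow (Complex.continuous_ofReal.comp UpperHalfPlane.continuous_im) continuous_const ?_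
    intro z
    left
    simpa using z.im_pos
  have hG := (hGWB Γ (pk r (pc β α)) φ hΓ hcont hT.2 hφ).2.1 g (aM δ)
  unfold pf
  rw [hG, hinv]
  unfold Wf
  rw [← integral_const_mul]
  refine integral_congr_ae (Filter.Eventually.of_forall fun z => ?_)
  have hz := hact (-δ) z
  have him : (aM (-δ) • z).im = Real.exp (-δ) * z.im := by
    have h := congrArg Complex.im hz
    rw [Complex.im_ofReal_mul] at h
    exact h
  have hre : (aM (-δ) • z).re = Real.exp (-δ) * z.re := by
    have h := congrArg Complex.re hz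
    rw [Complex.re_ofReal_mul] at h
    exact h
  change pk r (pc β α) (aM (-δ) • z) * φ (g • z) = _ * (pk r (pc (st δ β) fun τ => α (τ - δ)) z * φ (g • z))
  have hlog : Real.log (Real.exp (-δ) * z.im) = Real.log z.im - δ := by
    rw [Real.log_mul (Real.exp_pos _).ne' z.im_pos.ne', Real.log_exp]
    ring
  unfold pk pc st
  rw [him, hre, hlog, EQ2_pow _ _ _ z.im_pos]
  push_cast
  ring

end Pool.Agent.MS
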