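import Pool.Agent.helper62.MS.SpecA

set_option autoImplicit false

open scoped MatrixGroups ContDiff Topology UpperHalfPlane ComplexConjugate
open UpperHalfPlane MeasureTheory Filter Set

namespace Pool.Agent.MS

open Pool.Agent.RS

theorem QW_proof (hQM3 : QM3_stmt) (hEQ4 : EQ4_stmt) (hSTB : STB_stmt) (hGLC : GLC_stmt) : QW_stmt := by
  intro Γ F V hΓ hF hV hV2 hV01 β α hβ hα η hη
  obtain ⟨w0, hw0, hw08, hQ⟩ := hQM3 Γ F V hΓ hF hV hV2 hV01 (η / 2) (by positivity)
  obtain ⟨-, -, -, hst, hmono, hex⟩ := hSTB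
  have hadd := hGLC.2.2.2.2.2.2.2.2.2.2.1
  -- T
  obtain ⟨T, hT0, hT⟩ : ∃ T : ℝ, 0 ≤ T ∧ Real.exp (-T) * (1 / 4) = w0 := by
    refine ⟨-Real.log (4 * w0), ?_, ?_⟩
    · rw [neg_nonneg]
      exact Real.log_nonpos (by positivity) (by linarith)
    · rw [neg_neg, Real.exp_log (by positivity)]
      ring
  have hβ2 : BB w0 (st (-T) β) := by
    have h := hst (1 / 4) (-T) β hβ
    rw [hT] at h
    exact h
  obtain ⟨α2, hα2⟩ := (hex w0 hw0).1
  obtain ⟨K, r1, hK, hr1, hQ2⟩ := hQ w0 (st (-T) β) α2 hw0 le_rfl hβ2 hα2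
  obtain ⟨r0, hr0, hE⟩ := hEQ4 Γ F β α2 α T hΓ hF hβ ((hmono w0 (1 / 8) α2 hw08).2.1 hα2) hα hT0 (η / 2) (by positivity)
  refine ⟨T, K, max r1 r0, hT0, hK, le_trans hr1 (le_max_left _ _), ?_⟩
  intro r φ hr hφ t ht htr
  have h1 := hQ2 r φ (le_trans (le_max_left _ _) hr) hφ (t - T) (by linarith)
    (le_trans (Real.exp_le_exp.2 (by linarith)) htr)
  have hcont : Continuous fun g : SL(2, ℝ) => V ((g * aM t) • I) := by
    refine hV.1.comp ?_
    exact (continuous_mul_const (aM t)).smul continuous_const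
  have h2 := hE r φ (le_trans (le_max_right _ _) hr) hφ (fun g => V ((g * aM t) • I)) hcont.measurable
    (fun g => by
      rw [abs_of_nonneg (hV01 _).1]
      exact (hV01 _).2)
    (fun γ g => by
      have h3 := hV.2 γ ((g * aM t) • I)
      change V (((γ : SL(2, ℝ)) * g * aM t) • I) = V ((g * aM t) • I)
      rw [mul_assoc, mul_smul]
      exact h3)
  have h3 : ∀ g : SL(2, ℝ), g * aM (-T) * aM t = g * aM (t - T) := by
    intro g
    rw [mul_assoc, ← hadd]
    congr 2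
    ring
  simp only [h3] at h2
  have h4 := (abs_le.1 h2).1
  linarith

end Pool.Agent.MS
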