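import Pool.Agent.helper57.MS.Spec

/-!
# MP_b48e27_co, row ms:EXL
-/

set_option autoImplicit false

open Finset

namespace Pool.Agent.helper57.MS

open Pool.Agent.RRank Pool.Agent.helper26.IM

theorem EXL_sup {Ω : Type} [DecidableEq Ω] {S : Finset Ω} (P : Finpartition S) {I₀ : Finset Ω}
    (hI : I₀ ∈ P.parts) : (P.parts.erase I₀).sup id = S \ I₀ := by
  ext x
  rw [sup_eq_biUnion, mem_biUnion, mem_sdiff]
  constructor
  · rintro ⟨I, hI1, hI2⟩
    rw [mem_erase] at hI1
    refine ⟨P.le hI1.2 hI2, fun hx => ?_⟩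
    have h1 := P.disjoint hI1.2 hI hI1.1
    exact (Finset.disjoint_left.1 h1) hI2 hx
  · rintro ⟨hx1, hx2⟩
    obtain ⟨I, hI1, hI2⟩ := P.exists_mem hx1
    refine ⟨I, mem_erase.2 ⟨?_, hI1⟩, hI2⟩
    rintro rfl
    exact hx2 hI2

theorem EXL (hEXS : EXS_stmt) : EXL_stmt := by
  intro K _ Ω _ Q F B hB S s hs PP hPP g hg
  unfold FSys.Fs at hg
  refine (Submodule.span_le.2 ?_) hg
  rintro f ⟨P, hP, h, hh, rfl⟩
  obtain ⟨I₀, hI₀, hsI⟩ := P.exists_mem hs
  rw [SetLike.mem_coe, ← mul_prod_erase P.parts h hI₀]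
  obtain ⟨G, hG⟩ : ∃ G, G = ∏ I ∈ P.parts.erase I₀, h I := ⟨_, rfl⟩
  rw [← hG]
  have hE := hEXS K Ω Q F B hB I₀ s hsI (h I₀) (hh I₀ hI₀)
  have hI₀S : I₀ ⊆ S := P.le hI₀
  -- the partition of `S \ I₀`
  let Q₀ : Finpartition (S \ I₀) := P.ofSubset (erase_subset I₀ P.parts) (EXL_sup P hI₀)
  have hQ₀ : Q₀.parts = P.parts.erase I₀ := rfl
  generalize h I₀ = f₀ at hE ⊢
  induction hE using Submodule.span_induction with
  | zero => rw [zero_mul]; exact Submodule.zero_mem _
  | add x y _ _ hx hy => rw [add_mul]; exact Submodule.add_mem _ hx hy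
  | smul c x _ hx => rw [smul_mul_assoc]; exact Submodule.smul_mem _ c hx
  | mem x hx =>
    obtain ⟨J, b, ⟨hbJ, hsJ, hJ⟩, h', hh', rfl⟩ := hx
    apply Submodule.subset_span
    refine ⟨J, b, ⟨hbJ, hsJ, hJ.trans hI₀S⟩, h' * G, ?_, mul_assoc _ _ _⟩
    by_cases hJI : J = I₀
    · subst hJI
      have hG' : G ∈ F.Fs (lnk J PP) := by
        apply Submodule.subset_span
        refine ⟨Q₀, ⟨P, hP, ?_⟩, h, fun I hI => hh I (mem_of_mem_erase hI), hG⟩
        rw [hQ₀, insert_erase hI₀]
      rw [sdiff_self] at hh'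
      by_cases hne : Nonempty ((ω : Ω) → Q ω)
      · obtain ⟨x₀⟩ := hne
        have hc : h' = fun _ => h' x₀ := by
          funext x
          exact F.dep _ h' hh' (fun i hi => absurd hi (by simp))
        have hcG : h' * G = (h' x₀) • G := by
          funext x
          rw [Pi.mul_apply, Pi.smul_apply, smul_eq_mul, hc]
        rw [hcG]
        exact Submodule.smul_mem _ _ hG'
      · have : h' * G = G := by
          funext x
          exact absurd ⟨x⟩ hne
        rw [this]
        exact hG'
    · have hne : (I₀ \ J).Nonempty := by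
        rw [sdiff_nonempty]
        intro hsub
        exact hJI (Subset.antisymm hJ hsub)
      have hJne : J.Nonempty := ⟨s, hsJ⟩
      have hnot : I₀ \ J ∉ P.parts.erase I₀ := by
        intro hmem
        rw [mem_erase] at hmem
        have h1 := P.disjoint hmem.2 hI₀ hmem.1
        obtain ⟨x, hx⟩ := hne
        exact (Finset.disjoint_left.1 h1) hx (mem_sdiff.1 hx).1
      let P' : Finpartition (S \ J) := Q₀.extend (b := I₀ \ J) hne.ne_empty
        (by
          rw [Finset.disjoint_left]
          intro x hx hx'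
          exact (mem_sdiff.1 hx).2 (mem_sdiff.1 hx').1)
        (by
          ext x
          rw [sup_eq_union, mem_union, mem_sdiff, mem_sdiff, mem_sdiff]
          constructor
          · rintro (h1 | h1)
            · exact ⟨h1.1, fun h2 => h1.2 (hJ h2)⟩
            · exact ⟨hI₀S h1.1, h1.2⟩
          · rintro ⟨h1, h2⟩
            by_cases h3 : x ∈ I₀
            · exact Or.inr ⟨h3, h2⟩
            · exact Or.inl ⟨h1, h3⟩)
      have hP' : P'.parts = insert (I₀ \ J) (P.parts.erase I₀) := rfl
      let P₂ : Finpartition S := P'.extend (b := J) hJne.ne_empty sdiff_disjoint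
        (sdiff_union_of_subset (hJ.trans hI₀S))
      have hP₂ : P₂.parts = insert J P'.parts := rfl
      have hle : P₂ ≤ P := by
        intro I hI
        rw [hP₂, hP', mem_insert, mem_insert, mem_erase] at hI
        rcases hI with rfl | rfl | ⟨_, hI⟩
        · exact ⟨I₀, hI₀, hJ⟩
        · exact ⟨I₀, hI₀, sdiff_subset⟩
        · exact ⟨I, hI, le_rfl⟩
      apply Submodule.subset_span
      refine ⟨P', ⟨P₂, hPP hle hP, hP₂⟩, fun I => if I = I₀ \ J then h' else h I, ?_, ?_⟩
      · intro I hI
        rw [hP', mem_insert] at hI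
        show (if I = I₀ \ J then h' else h I) ∈ F.E I
        by_cases hIJ : I = I₀ \ J
        · rw [if_pos hIJ, hIJ]
          exact hh'
        · rw [if_neg hIJ]
          rcases hI with hI | hI
          · exact absurd hI hIJ
          · exact hh I (mem_of_mem_erase hI)
      · rw [hP', prod_insert hnot, if_pos rfl, hG]
        congr 1
        apply prod_congr rfl
        intro I hI
        rw [if_neg]
        rintro rfl
        exact hnot hI

end Pool.Agent.helper57.MS
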