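import Pool.Agent.helper57.MS.Spec

/-!
# MP_b48e27_co, row ms:ST2
-/

set_option autoImplicit false

open Finset

namespace Pool.Agent.helper57.MS

open Pool.Agent.RRank Pool.Agent.helper26.IM

/-- the projection to the families which are constant on `J` -/
def ST2_pi {d l : ℕ} (J : Finset (Fin d)) (s₀ : Fin d) (σ : Fin d → Equiv.Perm (Fin l)) :
    Fin d → Equiv.Perm (Fin l) := fun α => if α ∈ J then σ s₀ else σ α

/-- the term of the polarised sum -/
noncomputable def ST2_phi {K : Type} [Field K] {d l : ℕ} {Q : Fin d → Type} (B : Finset (Fin d))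
    (g₀ : ((α : Fin d) → Q α) → K) (σ : Fin d → Equiv.Perm (Fin l)) :
    ((w : Fin d × Fin l) → Q w.1) → K :=
  sg K B σ • ∏ i : Fin l, cop g₀ (fun α => σ α i)

theorem ST2_phi_pi {K : Type} [Field K] {d l : ℕ} {Q : Fin d → Type} (A J : Finset (Fin d))
    (s₀ : Fin d) (g₀ : ((α : Fin d) → Q α) → K)
    (hg : DependsOn g₀ ((Jᶜ : Finset (Fin d)) : Set (Fin d)))
    (σ : Fin d → Equiv.Perm (Fin l)) :
    ST2_phi (A \ J) g₀ σ = ST2_phi (A \ J) g₀ (ST2_pi J s₀ σ) := by
  unfold ST2_phi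
  congr 1
  · unfold sg
    apply prod_congr rfl
    intro α hα
    rw [mem_sdiff] at hα
    unfold ST2_pi
    rw [if_neg hα.2]
  · apply prod_congr rfl
    intro i _
    funext x
    unfold cop
    apply hg
    intro α hα
    rw [mem_coe, mem_compl] at hα
    unfold ST2_pi
    beta_reduce
    rw [if_neg hα]

theorem ST2_card {d l : ℕ} (J : Finset (Fin d)) {s₀ : Fin d} (hs : s₀ ∈ J)
    (τ τ' : Fin d → Equiv.Perm (Fin l)) (hτ : ∀ α ∈ J, τ α = τ s₀)
    (hτ' : ∀ α ∈ J, τ' α = τ' s₀) :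
    ((univ : Finset (Fin d → Equiv.Perm (Fin l))).filter (fun σ => ST2_pi J s₀ σ = τ)).card =
      ((univ : Finset (Fin d → Equiv.Perm (Fin l))).filter (fun σ => ST2_pi J s₀ σ = τ')).card := by
  have key : ∀ (τ τ' : Fin d → Equiv.Perm (Fin l)), (∀ α ∈ J, τ α = τ s₀) →
      (∀ α ∈ J, τ' α = τ' s₀) → ∀ σ, ST2_pi J s₀ σ = τ → ST2_pi J s₀ (σ * (τ⁻¹ * τ')) = τ' := by
    intro τ τ' hτ hτ' σ hσ
    funext α
    by_cases hα : α ∈ J
    · have h1 : σ s₀ = τ s₀ := by
        have := congrFun hσ s₀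
        unfold ST2_pi at this
        rwa [if_pos hs] at this
      unfold ST2_pi
      rw [if_pos hα, Pi.mul_apply, Pi.mul_apply, Pi.inv_apply, h1, mul_inv_cancel_left, hτ' α hα]
    · have h1 : σ α = τ α := by
        have := congrFun hσ α
        unfold ST2_pi at this
        rwa [if_neg hα] at this
      unfold ST2_pi
      rw [if_neg hα, Pi.mul_apply, Pi.mul_apply, Pi.inv_apply, h1, mul_inv_cancel_left]
  apply card_bij' (fun σ _ => σ * (τ⁻¹ * τ')) (fun σ _ => σ * (τ'⁻¹ * τ))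
  · intro σ hσ
    rw [mem_filter] at hσ ⊢
    exact ⟨mem_univ _, key τ τ' hτ hτ' σ hσ.2⟩
  · intro σ hσ
    rw [mem_filter] at hσ ⊢
    exact ⟨mem_univ _, key τ' τ hτ' hτ σ hσ.2⟩
  · intro σ _
    group
  · intro σ _
    group

theorem ST2 : ST2_stmt := by
  intro K _ d l Q A J s₀ g g₀ hs hev hg hG
  obtain ⟨SL, hSL⟩ : ∃ SL : Finset (Fin d → Equiv.Perm (Fin l)),
      SL = univ.filter (fun σ => ∀ α ∈ J, σ α = σ s₀) := ⟨_, rfl⟩
  have hmem : ∀ σ, σ ∈ SL ↔ ∀ α ∈ J, σ α = σ s₀ := by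
    intro σ
    rw [hSL, mem_filter]
    exact ⟨fun h => h.2, fun h => ⟨mem_univ _, h⟩⟩
  -- the sum over `SL`
  have hsum : ∑ σ ∈ SL, ST2_phi (A \ J) g₀ σ = 0 := by
    rw [← hG]
    unfold Gm
    symm
    apply sum_congr
    · ext σ
      rw [hmem, mem_filter]
      constructor
      · intro h α hα
        ext i
        rw [h.2 α hα i (σ s₀ i).2]
      · intro h
        refine ⟨mem_univ _, fun α hα i _ => ?_⟩
        rw [h α hα]
    · intro σ hσ
      rw [hmem] at hσ
      unfold ST2_phi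
      have e1 : (∏ i : Fin l, if (σ s₀ i : ℕ) < l then cop g₀ (fun α => σ α i)
          else cop g (fun α => σ α i)) = ∏ i : Fin l, cop g₀ (fun α => σ α i) := by
        apply prod_congr rfl
        intro i _
        rw [if_pos (σ s₀ i).2]
      have e2 : sg K A σ = sg K (A \ J) σ := by
        unfold sg
        have h1 : J ∩ A ⊆ A := inter_subset_right
        have h2 : A \ (J ∩ A) = A \ J := by
          ext x
          simp only [mem_sdiff, mem_inter]
          tauto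
        rw [← prod_sdiff h1, h2]
        have h3 : ∏ α ∈ J ∩ A, ((Equiv.Perm.sign (σ α) : ℤ) : K) = 1 := by
          have h4 : ∀ α ∈ J ∩ A, ((Equiv.Perm.sign (σ α) : ℤ) : K) =
              ((Equiv.Perm.sign (σ s₀) : ℤ) : K) := by
            intro α hα
            rw [hσ α (mem_inter.1 hα).1]
          rw [prod_congr rfl h4, prod_const]
          obtain ⟨c, hc⟩ := hev
          rw [hc, ← two_mul, pow_mul]
          rcases Int.units_eq_one_or (Equiv.Perm.sign (σ s₀)) with h5 | h5 <;> rw [h5] <;> simp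
        rw [h3, mul_one]
      rw [e1, e2]
  -- fibres of the projection
  have hmaps : ∀ σ ∈ (univ : Finset (Fin d → Equiv.Perm (Fin l))), ST2_pi J s₀ σ ∈ SL := by
    intro σ _
    rw [hmem]
    intro α hα
    unfold ST2_pi
    rw [if_pos hα, if_pos hs]
  have hH : H l (A \ J) g₀ = ∑ σ : Fin d → Equiv.Perm (Fin l), ST2_phi (A \ J) g₀ σ := rfl
  rw [hH, ← sum_fiberwise_of_maps_to hmaps]
  have h1 : (1 : Fin d → Equiv.Perm (Fin l)) ∈ SL := by
    rw [hmem]
    intro α _
    rfl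
  have hterm : ∀ τ ∈ SL, ∑ σ ∈ univ.filter (fun σ => ST2_pi J s₀ σ = τ), ST2_phi (A \ J) g₀ σ =
      ((univ : Finset (Fin d → Equiv.Perm (Fin l))).filter
        (fun σ => ST2_pi J s₀ σ = 1)).card • ST2_phi (A \ J) g₀ τ := by
    intro τ hτ
    rw [← ST2_card J hs τ 1 ((hmem τ).1 hτ) ((hmem 1).1 h1), ← sum_const]
    apply sum_congr rfl
    intro σ hσ
    rw [mem_filter] at hσ
    rw [ST2_phi_pi A J s₀ g₀ hg σ, hσ.2]
  rw [sum_congr rfl hterm, ← smul_sum, hsum, smul_zero]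

end Pool.Agent.helper57.MS
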